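import Pool.Agent.Helper77.PPB.Goals
import Pool.Agent.Helper38.FD.Twist

/-!
# Project PPB (MP_fc6b1e_nt), packet B_NIN: the Kummer generator is not in `M₁ L₀`
-/

namespace Pool.Agent.Helper85.PPB

open NumberField Polynomial Module IsDedekindDomain Pool.Agent.Helper77.PPB
open Pool.Agent.Helper38.FD (Chr CutsOut fix_sup)

theorem b_nin : Pool.Agent.Helper77.PPB.B_NIN := by
  intro p hpF K _ _ M₁ J L₀ M₂ _ _ _ _ _ _ hM₂ hJ hcop ψ₁ _ hl hp s hsp hs hfix hex hcon
  have hprime : p.Prime := hpF.out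
  -- an automorphism fixing `M₂` and moving `s`
  obtain ⟨h, hh, hhs⟩ : ∃ h : AlgebraicClosure K ≃ₐ[K] AlgebraicClosure K,
      (∀ x ∈ M₂, h x = x) ∧ h s ≠ s := by
    by_contra hno
    push Not at hno
    apply hs
    rw [← InfiniteGalois.fixedField_fixingSubgroup M₂]
    rintro ⟨g, hg⟩
    exact hno g ((IntermediateField.mem_fixingSubgroup_iff _ _).1 hg)
  have hJM : J ≤ M₂ := by rw [hM₂]; exact le_sup_right
  have hψh : ψ₁ h ≠ 1 := fun h1 => hhs (hfix h hh h1)
  have hψh2 : ψ₁ h ^ p = 1 := hp h fun x hx => hh x (hJM hx)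
  -- every automorphism fixing `M₁ L₀` is in the kernel
  have key : ∀ g : AlgebraicClosure K ≃ₐ[K] AlgebraicClosure K,
      (∀ x ∈ M₁, g x = x) → (∀ x ∈ L₀, g x = x) → ψ₁ g = 1 := by
    intro g hg1 hg2
    by_contra hne
    have hgs : g s = s := fix_sup g hg1 hg2 s hcon
    have hgJ : ∀ x ∈ J, g x = x := fun x hx => hg2 x (hJ hx)
    have hgM : ∀ x ∈ M₂, g x = x := by rw [hM₂]; exact fix_sup g hg1 hgJ
    have hgp : ψ₁ g ^ p = 1 := hp g hgJ
    have hord : orderOf (ψ₁ g) = p := orderOf_eq_prime hgp hne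
    have hprim : IsPrimitiveRoot ((ψ₁ g : ℂ_[p]ˣ) : ℂ_[p]) p := by
      have := IsPrimitiveRoot.orderOf (ψ₁ g)
      rw [hord] at this
      exact IsPrimitiveRoot.coe_units_iff.2 this
    have hne0 : NeZero p := ⟨hprime.ne_zero⟩
    obtain ⟨i, -, hi⟩ := hprim.eq_pow_of_pow_eq_one (ξ := ((ψ₁ h : ℂ_[p]ˣ) : ℂ_[p])) (by
      rw [← Units.val_pow_eq_pow_val, hψh2, Units.val_one])
    have hi2 : ψ₁ g ^ i = ψ₁ h := by
      apply Units.ext
      rw [Units.val_pow_eq_pow_val]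
      exact hi
    -- powers of `g` fix `s` and `M₂`
    have hpow : ∀ x, g x = x → ∀ n : ℕ, (g ^ n) x = x := by
      intro x hx n
      induction n with
      | zero => rfl
      | succ n ih => rw [pow_succ, AlgEquiv.mul_apply, hx, ih]
    have hinv : ∀ x, g x = x → (g ^ i)⁻¹ x = x := by
      intro x hx
      have h1 := hpow x hx i
      calc (g ^ i)⁻¹ x = (g ^ i)⁻¹ ((g ^ i) x) := by rw [h1]
        _ = ((g ^ i)⁻¹ * g ^ i) x := rfl
        _ = x := by rw [inv_mul_cancel]; rfl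
    have h2 := hfix (h * (g ^ i)⁻¹) (fun x hx => by
      rw [AlgEquiv.mul_apply, hinv x (hgM x hx), hh x hx]) (by
      rw [map_mul, map_inv, map_pow, hi2, mul_inv_cancel])
    rw [AlgEquiv.mul_apply, hinv s hgs] at h2
    exact hhs h2
  obtain ⟨g, hg, hgne⟩ := hex
  obtain ⟨l, hl⟩ := hl
  have hc0 : 0 < finrank K M₁ := by
    rcases Nat.eq_zero_or_pos (finrank K M₁) with h0 | h0
    · rw [h0, Nat.coprime_zero_left] at hcop
      exact absurd hcop hprime.one_lt.ne'
    · exact h0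
  have hfd : FiniteDimensional K M₁ := FiniteDimensional.of_finrank_pos hc0
  have hgc1 : ∀ x ∈ M₁, (g ^ finrank K M₁) x = x := by
    intro x hx
    have h3 : AlgEquiv.restrictNormalHom M₁ (g ^ finrank K M₁) = 1 := by
      rw [map_pow, ← IsGalois.card_aut_eq_finrank K M₁, pow_card_eq_one']
    have h4 := AlgEquiv.restrictNormal_commutes (g ^ finrank K M₁) M₁ ⟨x, hx⟩
    have h5 : (g ^ finrank K M₁).restrictNormal M₁ = 1 := h3
    rw [h5] at h4
    exact h4.symm
  have hgc2 : ∀ x ∈ L₀, (g ^ finrank K M₁) x = x := by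
    intro x hx
    generalize finrank K M₁ = n
    induction n with
    | zero => rfl
    | succ n ih => rw [pow_succ, AlgEquiv.mul_apply, hg x hx, ih]
  have h6 : ψ₁ g ^ finrank K M₁ = 1 := by rw [← map_pow]; exact key _ hgc1 hgc2
  have h7 : ψ₁ g ^ p ^ l = 1 := by
    have := congrArg (fun χ : Chr K (AlgebraicClosure K) ℂ_[p] => χ g) hl
    exact this
  have d1 := orderOf_dvd_of_pow_eq_one h6
  have d2 := orderOf_dvd_of_pow_eq_one h7
  have := Nat.dvd_gcd d1 d2
  rw [Nat.Coprime.gcd_eq_one (hcop.pow_right l)] at this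
  exact hgne (orderOf_eq_one_iff.1 (Nat.dvd_one.1 this))

end Pool.Agent.Helper85.PPB
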